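import Pool.Agent.Helper184.KM.Tube

/-!
Sums of indicator functions of tubes: semicontinuity in the centres, dilations, partitions.
-/

open MeasureTheory Set Metric Filter
open scoped ENNReal NNReal Topology

namespace Pool.Agent.Helper184.TP

open Pool.Agent.Helper184.KM (tube otube tube_closed tube_meas otube_open otube_sub tube_diff_null)

/-- Euclidean space -/
abbrev Rn (n : ℕ) := EuclideanSpace ℝ (Fin n)
/-- unit sphere -/
abbrev Sph (n : ℕ) := sphere (0 : Rn n) 1

variable {n : ℕ}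

/-- multiplicity function of the tubes -/
noncomputable def mult (δ : ℝ) (Ω : Finset (Sph n)) (a : Sph n → Rn n) (x : Rn n) : ℝ≥0∞ :=
  ∑ e ∈ Ω, (tube δ (a e) (e : Rn n)).indicator (fun _ => 1) x

/-- multiplicity function of the open tubes -/
noncomputable def omult (δ : ℝ) (Ω : Finset (Sph n)) (a : Sph n → Rn n) (x : Rn n) : ℝ≥0∞ :=
  ∑ e ∈ Ω, (otube δ (a e) (e : Rn n)).indicator (fun _ => 1) x

/-- `q`-th power of the `L^q` norm -/
noncomputable def Nq (q δ : ℝ) (Ω : Finset (Sph n)) (a : Sph n → Rn n) : ℝ≥0∞ :=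
  ∫⁻ x, (mult δ Ω a x) ^ q

theorem mult_meas (δ : ℝ) (Ω : Finset (Sph n)) (a : Sph n → Rn n) : Measurable (mult δ Ω a) := by
  unfold mult
  exact Finset.measurable_fun_sum _ fun e _ => measurable_const.indicator (tube_meas _ _ _)

theorem omult_meas (δ : ℝ) (Ω : Finset (Sph n)) (a : Sph n → Rn n) : Measurable (omult δ Ω a) := by
  unfold omult
  exact Finset.measurable_fun_sum _ fun e _ =>
    measurable_const.indicator (otube_open _ _ _).measurableSet

theorem Nq_congr {q δ : ℝ} {Ω : Finset (Sph n)} {a b : Sph n → Rn n} (h : ∀ e ∈ Ω, a e = b e) :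
    Nq q δ Ω a = Nq q δ Ω b := by
  unfold Nq mult
  refine lintegral_congr fun x => ?_
  congr 1
  refine Finset.sum_congr rfl fun e he => ?_
  rw [h e he]

theorem mult_ae {δ : ℝ} (hδ : 0 < δ) (Ω : Finset (Sph n)) (a : Sph n → Rn n) :
    mult δ Ω a =ᵐ[volume] omult δ Ω a := by
  have h1 : ∀ᵐ x : Rn n, ∀ e ∈ Ω, x ∉ tube δ (a e) (e : Rn n) \ otube δ (a e) (e : Rn n) := by
    rw [eventually_all_finset]
    intro e _
    exact measure_eq_zero_iff_ae_notMem.1 (tube_diff_null hδ (a e) (e : Rn n))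
  filter_upwards [h1] with x hx
  unfold mult omult
  refine Finset.sum_congr rfl fun e he => ?_
  by_cases hxt : x ∈ tube δ (a e) (e : Rn n)
  · have hxo : x ∈ otube δ (a e) (e : Rn n) := by
      by_contra hcon
      exact hx e he ⟨hxt, hcon⟩
    rw [indicator_of_mem hxt, indicator_of_mem hxo]
  · have hxo : x ∉ otube δ (a e) (e : Rn n) := fun h => hxt (otube_sub _ _ _ h)
    rw [indicator_of_notMem hxt, indicator_of_notMem hxo]

theorem otube_centre_open (δ : ℝ) (e y : Rn n) : IsOpen {a : Rn n | y ∈ otube δ a e} := by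
  have h1 : Continuous fun a : Rn n => |(inner ℝ (y - a) e : ℝ)| := by fun_prop
  have h2 : Continuous fun a : Rn n => ‖(y - a) - (inner ℝ (y - a) e : ℝ) • e‖ := by fun_prop
  exact (isOpen_lt h1 continuous_const).inter (isOpen_lt h2 continuous_const)

theorem Nq_closed {q δ : ℝ} (hq : 0 ≤ q) (hδ : 0 < δ) (Ω : Finset (Sph n)) (c : ℝ≥0∞) :
    IsClosed {a : C(Sph n, Rn n) | Nq q δ Ω a ≤ c} := by
  apply IsSeqClosed.isClosed
  intro u a hu hlim
  simp only [mem_setOf_eq] at hu ⊢
  have hrep : ∀ b : Sph n → Rn n, Nq q δ Ω b = ∫⁻ x, (omult δ Ω b x) ^ q := fun b => by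
    unfold Nq
    refine lintegral_congr_ae ?_
    filter_upwards [mult_ae hδ Ω b] with x hx
    rw [hx]
  rw [hrep]
  have hpt : ∀ e : Sph n, Tendsto (fun j => u j e) atTop (𝓝 (a e)) := fun e =>
    ((continuous_eval_const e).tendsto a).comp hlim
  calc ∫⁻ x, (omult δ Ω a x) ^ q
      ≤ ∫⁻ x, liminf (fun j => (omult δ Ω (u j) x) ^ q) atTop := by
        refine lintegral_mono fun x => ?_
        refine le_liminf_of_le (by isBoundedDefault) ?_
        have hev : ∀ᶠ j in atTop, ∀ e ∈ Ω, x ∈ otube δ (a e) (e : Rn n) →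
            x ∈ otube δ (u j e) (e : Rn n) := by
          rw [eventually_all_finset]
          intro e _
          by_cases hx : x ∈ otube δ (a e) (e : Rn n)
          · filter_upwards [(hpt e).eventually ((otube_centre_open δ (e : Rn n) x).mem_nhds hx)]
              with j hj _
            exact hj
          · exact Eventually.of_forall fun j h => absurd h hx
        filter_upwards [hev] with j hj
        refine ENNReal.rpow_le_rpow ?_ hq
        unfold omult
        refine Finset.sum_le_sum fun e he => ?_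
        by_cases hx : x ∈ otube δ (a e) (e : Rn n)
        · rw [indicator_of_mem hx, indicator_of_mem (hj e he hx)]
        · rw [indicator_of_notMem hx]; exact bot_le
    _ ≤ liminf (fun j => ∫⁻ x, (omult δ Ω (u j) x) ^ q) atTop :=
        lintegral_liminf_le' fun j => ((omult_meas δ Ω (u j)).pow_const q).aemeasurable
    _ ≤ c := by
        refine liminf_le_of_le (by isBoundedDefault) fun b hb => ?_
        obtain ⟨j, hj⟩ := hb.exists
        refine hj.trans ?_
        rw [← hrep]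
        exact hu j

theorem Nq_dil {q δ l : ℝ} (hq : 0 ≤ q) (hl0 : 0 < l) (hl1 : l ≤ 1) (Ω : Finset (Sph n))
    (b : Sph n → Rn n) (w : Rn n) :
    ENNReal.ofReal (l ^ n) * Nq q δ Ω b ≤ Nq q (l * δ) Ω (fun e => w + l • b e) := by
  set G : Rn n → ℝ≥0∞ := fun x => (mult (l * δ) Ω (fun e => w + l • b e) x) ^ q with hG
  have hGm : Measurable G := (mult_meas _ _ _).pow_const q
  have h1 : ∫⁻ x, G x = ∫⁻ x, G (w + x) := (lintegral_add_left_eq_self G w).symm
  have h2 : ∫⁻ y, G (w + l • y) = ENNReal.ofReal |(l ^ n)⁻¹| * ∫⁻ x, G (w + x) := by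
    have hm : Measurable fun x : Rn n => G (w + x) := hGm.comp (measurable_const_add w)
    have h3 := lintegral_map (μ := (volume : Measure (Rn n))) hm (measurable_const_smul l)
    rw [Measure.map_addHaar_smul volume hl0.ne', lintegral_smul_measure] at h3
    simp only [finrank_euclideanSpace, Fintype.card_fin] at h3
    exact h3.symm
  have hln : 0 < l ^ n := pow_pos hl0 n
  have h4 : ENNReal.ofReal (l ^ n) * ∫⁻ y, G (w + l • y) = ∫⁻ x, G x := by
    rw [h2, h1, ← mul_assoc, ← ENNReal.ofReal_mul hln.le, abs_of_pos (inv_pos.2 hln),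
      mul_inv_cancel₀ hln.ne', ENNReal.ofReal_one, one_mul]
  show ENNReal.ofReal (l ^ n) * Nq q δ Ω b ≤ ∫⁻ x, G x
  rw [← h4]
  refine mul_le_mul_right (lintegral_mono fun y => ?_) _
  show (mult δ Ω b y) ^ q ≤ (mult (l * δ) Ω (fun e => w + l • b e) (w + l • y)) ^ q
  refine ENNReal.rpow_le_rpow ?_ hq
  unfold mult
  refine Finset.sum_le_sum fun e _ => ?_
  by_cases hy : y ∈ tube δ (b e) (e : Rn n)
  · have hmem : w + l • y ∈ tube (l * δ) (w + l • b e) (e : Rn n) := by
      obtain ⟨hy1, hy2⟩ := hy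
      have e0 : w + l • y - (w + l • b e) = l • (y - b e) := by module
      have e1 : (inner ℝ (w + l • y - (w + l • b e)) (e : Rn n) : ℝ) =
          l * inner ℝ (y - b e) (e : Rn n) := by
        rw [e0, inner_smul_left]; simp
      refine ⟨?_, ?_⟩
      · rw [e1, abs_mul, abs_of_pos hl0]
        calc l * |(inner ℝ (y - b e) (e : Rn n) : ℝ)| ≤ 1 * (1 / 2) := by gcongr
          _ = 1 / 2 := one_mul _
      · rw [e1, e0, ← smul_smul, ← smul_sub, norm_smul, Real.norm_of_nonneg hl0.le]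
        gcongr
    rw [indicator_of_mem hy, indicator_of_mem hmem]
  · rw [indicator_of_notMem hy]; exact bot_le

theorem sum_rpow_le {ι : Type*} {q : ℝ} (hq : 0 < q) (I : Finset ι) (F : ι → ℝ≥0∞) {M : ℕ}
    (hM : (I.filter fun i => F i ≠ 0).card ≤ M) :
    (∑ i ∈ I, F i) ^ q ≤ (M : ℝ≥0∞) ^ q * ∑ i ∈ I, F i ^ q := by
  classical
  set J := I.filter fun i => F i ≠ 0 with hJ
  have h1 : ∑ i ∈ I, F i = ∑ i ∈ J, F i := by
    rw [hJ, Finset.sum_filter_ne_zero]
  rcases J.eq_empty_or_nonempty with h0 | h0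
  · rw [h1, h0, Finset.sum_empty, ENNReal.zero_rpow_of_pos hq]
    exact bot_le
  · obtain ⟨i0, hi0, hmax⟩ := Finset.exists_max_image J F h0
    have hi0I : i0 ∈ I := (Finset.mem_filter.1 hi0).1
    calc (∑ i ∈ I, F i) ^ q = (∑ i ∈ J, F i) ^ q := by rw [h1]
      _ ≤ ((M : ℝ≥0∞) * F i0) ^ q := by
          refine ENNReal.rpow_le_rpow ?_ hq.le
          calc ∑ i ∈ J, F i ≤ J.card • F i0 := Finset.sum_le_card_nsmul J F _ hmax
            _ = (J.card : ℝ≥0∞) * F i0 := nsmul_eq_mul _ _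
            _ ≤ (M : ℝ≥0∞) * F i0 := by gcongr
      _ = (M : ℝ≥0∞) ^ q * F i0 ^ q := ENNReal.mul_rpow_of_nonneg _ _ hq.le
      _ ≤ (M : ℝ≥0∞) ^ q * ∑ i ∈ I, F i ^ q := by
          gcongr
          exact Finset.single_le_sum (f := fun i => F i ^ q) (fun i _ => bot_le) hi0I

theorem sum_pow_le {ι : Type*} {β : ℝ} (hβ : 1 ≤ β) (I : Finset ι) (f : ι → ℝ≥0∞) :
    ∑ i ∈ I, f i ^ β ≤ (∑ i ∈ I, f i) ^ β := by
  classical
  induction I using Finset.induction_on with
  | empty => simp
  | insert i s hi ih =>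
    rw [Finset.sum_insert hi, Finset.sum_insert hi]
    exact (add_le_add le_rfl ih).trans (ENNReal.add_rpow_le_rpow_add _ _ hβ)

/-- partition of a family of tubes into subfamilies of bounded overlap -/
theorem Nq_partition {ι : Type} [DecidableEq ι] {q δ : ℝ} (hq : 0 < q) (Ω : Finset (Sph n))
    (b : Sph n → Rn n) (κ : Sph n → ι) {M : ℕ}
    (hM : ∀ x : Rn n, ∃ S : Finset ι, S.card ≤ M ∧
      ∀ e ∈ Ω, x ∈ tube δ (b e) (e : Rn n) → κ e ∈ S) :
    Nq q δ Ω b ≤ (M : ℝ≥0∞) ^ q *
      ∑ i ∈ Ω.image κ, Nq q δ (Ω.filter fun e => κ e = i) b := by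
  unfold Nq
  rw [← lintegral_finsetSum _ fun i _ => (mult_meas _ _ _).pow_const q,
    ← lintegral_const_mul _ (Finset.measurable_fun_sum _ fun i _ => (mult_meas _ _ _).pow_const q)]
  refine lintegral_mono fun x => ?_
  have h1 : mult δ Ω b x = ∑ i ∈ Ω.image κ, mult δ (Ω.filter fun e => κ e = i) b x := by
    unfold mult
    exact (Finset.sum_fiberwise_of_maps_to (fun e he => Finset.mem_image_of_mem κ he) _).symm
  rw [h1]
  refine sum_rpow_le hq _ _ ?_
  obtain ⟨S, hS, hS2⟩ := hM x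
  refine le_trans (Finset.card_le_card ?_) hS
  intro i hi
  rw [Finset.mem_filter] at hi
  obtain ⟨-, hi⟩ := hi
  unfold mult at hi
  obtain ⟨e, he, hne⟩ := Finset.exists_ne_zero_of_sum_ne_zero hi
  rw [Finset.mem_filter] at he
  have hx : x ∈ tube δ (b e) (e : Rn n) := by
    by_contra hcon
    rw [indicator_of_notMem hcon] at hne
    exact hne rfl
  rw [← he.2]
  exact hS2 e he.1 hx

end Pool.Agent.Helper184.TP
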