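import Pool.Agent.Helper184.TP.Core
import Pool.Agent.Helper184.KM.Rot

/-!
A category theorem: typical continuous choices of centres are the worst choices.
-/

open MeasureTheory Set Metric Filter
open scoped ENNReal NNReal Topology

namespace Pool.Agent.Helper184.TP

open Pool.Agent.Helper184.KM (tube otube tube_closed tube_meas otube_open otube_sub tube_diff_null)

variable {n : ℕ}

/-- separated directions -/
def Sep (δ : ℝ) (Ω : Finset (Sph n)) : Prop := ∀ e ∈ Ω, ∀ e' ∈ Ω, e ≠ e' → δ ≤ dist e e'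

/-- power form of the tube inequality, for directions in `U` -/
def PB (n : ℕ) (U : Set (Sph n)) (q σ β : ℝ) (K : ℝ≥0) (a : Sph n → Rn n) : Prop :=
  ∀ δ : ℝ, 0 < δ → δ < 1 → ∀ Ω : Finset (Sph n), (Ω : Set (Sph n)) ⊆ U → Sep δ Ω →
    Nq q δ Ω a ≤ K * ENNReal.ofReal (δ ^ σ) * (Ω.card : ℝ≥0∞) ^ β

theorem PB_mono {U : Set (Sph n)} {q σ β : ℝ} {K K' : ℝ≥0} (h : K ≤ K') {a : Sph n → Rn n}
    (ha : PB n U q σ β K a) :
    PB n U q σ β K' a := fun δ h0 h1 Ω hU hs => (ha δ h0 h1 Ω hU hs).trans (by gcongr)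

theorem PB_closed {U : Set (Sph n)} {q σ β : ℝ} (hq : 0 ≤ q) (K : ℝ≥0) :
    IsClosed {a : C(Sph n, Rn n) | PB n U q σ β K a} := by
  have h : {a : C(Sph n, Rn n) | PB n U q σ β K a} =
      ⋂ (δ : ℝ) (_ : 0 < δ) (_ : δ < 1) (Ω : Finset (Sph n)) (_ : (Ω : Set (Sph n)) ⊆ U)
        (_ : Sep δ Ω),
        {a : C(Sph n, Rn n) | Nq q δ Ω a ≤ K * ENNReal.ofReal (δ ^ σ) * (Ω.card : ℝ≥0∞) ^ β} := by
    ext a
    simp only [PB, mem_iInter]
    exact Iff.rfl
  rw [h]
  exact isClosed_iInter fun δ => isClosed_iInter fun h0 => isClosed_iInter fun h1 =>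
    isClosed_iInter fun Ω => isClosed_iInter fun _ => isClosed_iInter fun hs =>
      Nq_closed hq h0 Ω _

theorem extend {δ η : ℝ} (hδ : 0 < δ) (hη : 0 ≤ η) {Ω : Finset (Sph n)} (hs : Sep δ Ω)
    (a0 : C(Sph n, Rn n)) (v : Sph n → Rn n) (hv : ∀ e ∈ Ω, ‖v e - a0 e‖ ≤ η) :
    ∃ a : C(Sph n, Rn n), dist a a0 ≤ η ∧ ∀ e ∈ Ω, a e = v e := by
  set bump : Sph n → Sph n → ℝ := fun e x => max 0 (1 - (2 / δ) * dist x e) with hbump
  have hb1 : ∀ e, bump e e = 1 := fun e => by simp [hbump]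
  have hb0 : ∀ e x, δ / 2 ≤ dist x e → bump e x = 0 := fun e x h => by
    rw [hbump]
    refine max_eq_left ?_
    have : 2 / δ * (δ / 2) ≤ 2 / δ * dist x e := by gcongr
    have h2 : 2 / δ * (δ / 2) = 1 := by field_simp
    linarith
  have hbn : ∀ e x, 0 ≤ bump e x := fun e x => le_max_left _ _
  have hbl : ∀ e x, bump e x ≤ 1 := fun e x => by
    refine max_le zero_le_one ?_
    have : 0 ≤ 2 / δ * dist x e := by positivity
    linarith
  have hcont : Continuous fun x => a0 x + ∑ e ∈ Ω, bump e x • (v e - a0 e) := by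
    refine a0.continuous.add (continuous_finsetSum _ fun e _ => ?_)
    have hb : Continuous fun x => bump e x :=
      continuous_const.max (continuous_const.sub
        (continuous_const.mul (continuous_id.dist continuous_const)))
    exact hb.smul continuous_const
  refine ⟨⟨_, hcont⟩, ?_, ?_⟩
  · rw [ContinuousMap.dist_le hη]
    intro x
    show dist (a0 x + ∑ e ∈ Ω, bump e x • (v e - a0 e)) (a0 x) ≤ η
    rw [dist_eq_norm, add_sub_cancel_left]
    by_cases hx : ∃ e ∈ Ω, dist x e < δ / 2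
    · obtain ⟨e, he, hxe⟩ := hx
      rw [Finset.sum_eq_single e]
      · rw [norm_smul, Real.norm_of_nonneg (hbn e x)]
        calc bump e x * ‖v e - a0 e‖ ≤ 1 * η := by
              gcongr
              · exact hbl e x
              · exact hv e he
          _ = η := one_mul _
      · intro e' he' hne
        rw [hb0 e' x ?_, zero_smul]
        have h1 := hs e he e' he' hne.symm
        have h2 := dist_triangle e x e'
        rw [dist_comm e x] at h2
        linarith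
      · exact fun h => absurd he h
    · push Not at hx
      rw [Finset.sum_eq_zero fun e he => by rw [hb0 e x (hx e he), zero_smul], norm_zero]
      exact hη
  · intro e he
    show a0 e + ∑ e' ∈ Ω, bump e' e • (v e' - a0 e') = v e
    rw [Finset.sum_eq_single e]
    · rw [hb1, one_smul]; abel
    · intro e' he' hne
      rw [hb0 e' e ?_, zero_smul]
      have h1 := hs e he e' he' hne.symm
      linarith
    · exact fun h => absurd he h

theorem norm_le_sum (x : Rn n) : ‖x‖ ≤ ∑ j, |x j| := by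
  have h : x = ∑ j, x j • (EuclideanSpace.single j (1 : ℝ)) := by
    ext i
    simp [Finset.sum_apply, Pi.single_apply]
  calc ‖x‖ = ‖∑ j, x j • (EuclideanSpace.single j (1 : ℝ) : Rn n)‖ := by rw [← h]
    _ ≤ ∑ j, ‖x j • (EuclideanSpace.single j (1 : ℝ) : Rn n)‖ := norm_sum_le _ _
    _ = ∑ j, |x j| := by
        refine Finset.sum_congr rfl fun j _ => ?_
        rw [norm_smul]; simp

theorem tube_near {δ : ℝ} (h1 : δ < 1) {a : Rn n} {e : Sph n} {x : Rn n}
    (hx : x ∈ tube δ a (e : Rn n)) : ‖x - a‖ ≤ 2 := by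
  obtain ⟨hx1, hx2⟩ := hx
  have he : ‖(e : Rn n)‖ = 1 := by simp
  calc ‖x - a‖ = ‖((x - a) - (inner ℝ (x - a) (e : Rn n) : ℝ) • (e : Rn n)) +
        (inner ℝ (x - a) (e : Rn n) : ℝ) • (e : Rn n)‖ := by rw [sub_add_cancel]
    _ ≤ ‖(x - a) - (inner ℝ (x - a) (e : Rn n) : ℝ) • (e : Rn n)‖ +
        ‖(inner ℝ (x - a) (e : Rn n) : ℝ) • (e : Rn n)‖ := norm_add_le _ _
    _ ≤ δ + 1 / 2 := by
        rw [norm_smul, he, mul_one, Real.norm_eq_abs]
        gcongr
    _ ≤ 2 := by linarith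

theorem rot_dist (g : Rn n ≃ₗᵢ[ℝ] Rn n) (e e' : Sph n) :
    dist (KM.rot g e) (KM.rot g e') = dist e e' := by
  show dist (g (e : Rn n)) (g (e' : Rn n)) = dist (e : Rn n) (e' : Rn n)
  exact g.dist_map _ _

theorem rot_inj (g : Rn n ≃ₗᵢ[ℝ] Rn n) : Function.Injective (KM.rot g) := by
  intro e e' h
  have : dist e e' = 0 := by rw [← rot_dist g, h, dist_self]
  exact dist_eq_zero.1 this

theorem rot_symm (g : Rn n ≃ₗᵢ[ℝ] Rn n) (e : Sph n) : KM.rot g.symm (KM.rot g e) = e := by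
  ext1
  show g.symm (g (e : Rn n)) = e
  exact g.symm_apply_apply _

theorem Nq_rot [DecidableEq (Sph n)] (g : Rn n ≃ₗᵢ[ℝ] Rn n) (q δ : ℝ) (Ω : Finset (Sph n))
    (b : Sph n → Rn n) :
    Nq q δ (Ω.image (KM.rot g)) (fun e => g (b (KM.rot g.symm e))) = Nq q δ Ω b := by
  have h1 : ∀ x, mult δ (Ω.image (KM.rot g)) (fun e => g (b (KM.rot g.symm e))) (g x) =
      mult δ Ω b x := by
    intro x
    unfold mult
    rw [Finset.sum_image fun _ _ _ _ h => rot_inj g h]
    refine Finset.sum_congr rfl fun e _ => ?_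
    show (tube δ (g (b (KM.rot g.symm (KM.rot g e)))) (KM.rot g e : Rn n)).indicator
      (fun _ => (1 : ℝ≥0∞)) (g x) = (tube δ (b e) (e : Rn n)).indicator (fun _ => 1) x
    rw [rot_symm]
    have h2 : (x ∈ tube δ (b e) (e : Rn n)) ↔
        (g x ∈ tube δ (g (b e)) (KM.rot g e : Rn n)) := by
      rw [← KM.tube_iso g δ (b e) (e : Rn n)]
      exact Iff.rfl
    by_cases hx : x ∈ tube δ (b e) (e : Rn n)
    · rw [indicator_of_mem hx, indicator_of_mem (h2.1 hx)]
    · rw [indicator_of_notMem hx, indicator_of_notMem fun h => hx (h2.2 h)]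
  unfold Nq
  have h3 := g.measurePreserving.lintegral_comp_emb g.toHomeomorph.measurableEmbedding
    (fun y => (mult δ (Ω.image (KM.rot g)) (fun e => g (b (KM.rot g.symm e))) y) ^ q)
  rw [← h3]
  refine lintegral_congr fun x => ?_
  rw [h1]

theorem local_bound {U : Set (Sph n)} (hU : IsOpen U) (hne : U.Nonempty) {q σ β : ℝ} (hq : 0 < q)
    (hβ : 1 ≤ β) {K : ℝ≥0} {a0 : C(Sph n, Rn n)} {η : ℝ} (hη : 0 < η)
    (h : ∀ a : C(Sph n, Rn n), dist a a0 ≤ η → PB n U q σ β K a) :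
    ∃ K' : ℝ≥0, ∀ b : Sph n → Rn n, PB n univ q σ β K' b := by
  classical
  obtain ⟨f0, hf0⟩ := hne
  have hev : ∀ᶠ e in 𝓝 f0, e ∈ U ∧ dist (a0 e) (a0 f0) < η / 2 := by
    have h1 : ∀ᶠ e in 𝓝 f0, e ∈ U := hU.mem_nhds hf0
    have h2 : IsOpen {e | dist (a0 e) (a0 f0) < η / 2} :=
      isOpen_lt (a0.continuous.dist continuous_const) continuous_const
    have h3 : ∀ᶠ e in 𝓝 f0, dist (a0 e) (a0 f0) < η / 2 := h2.mem_nhds (by simp [hη])
    exact h1.and h3
  obtain ⟨ρ, hρ, hρ'⟩ := Metric.eventually_nhds_iff.1 hev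
  -- finite cover
  obtain ⟨F, -, hF⟩ := (isCompact_univ : IsCompact (univ : Set (Sph n))).elim_nhds_subcover
    (fun f => ball f ρ) (fun f _ => ball_mem_nhds f hρ)
  have hc : ∀ e : Sph n, ∃ f ∈ F, dist e f < ρ := fun e => by
    have := hF (mem_univ e)
    simpa using this
  choose c hcF hcd using hc
  have hg : ∀ f : Sph n, ∃ g : Rn n ≃ₗᵢ[ℝ] Rn n, KM.rot g f = f0 := fun f => by
    obtain ⟨k, hk⟩ := Pool.Agent.TH705.RR.act_trans (f : Rn n) (f0 : Rn n) (by simp) (by simp)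
    exact ⟨_, Subtype.ext hk⟩
  choose g hgf using hg
  set R : ℝ := n + 1 with hR
  have hR0 : 0 < R := by positivity
  set l : ℝ := min 1 (η / (2 * R)) with hl
  have hl0 : 0 < l := lt_min one_pos (by positivity)
  have hl1 : l ≤ 1 := min_le_left _ _
  have hlR : l * R ≤ η / 2 := by
    calc l * R ≤ η / (2 * R) * R := by gcongr; exact min_le_right _ _
      _ = η / 2 := by field_simp
  set M : ℕ := F.card * 5 ^ n with hM
  set KB : ℝ≥0∞ := ENNReal.ofReal ((l ^ n)⁻¹) * (K * ENNReal.ofReal (l ^ σ)) with hKB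
  have hKBfin : KB ≠ ∞ :=
    ENNReal.mul_ne_top ENNReal.ofReal_ne_top (ENNReal.mul_ne_top ENNReal.coe_ne_top
      ENNReal.ofReal_ne_top)
  have hMfin : (M : ℝ≥0∞) ^ q ≠ ∞ :=
    ENNReal.rpow_ne_top_of_nonneg hq.le (ENNReal.natCast_ne_top M)
  refine ⟨((M : ℝ≥0∞) ^ q * KB).toNNReal, fun b δ h0 h1 Ω _ hs => ?_⟩
  rw [ENNReal.coe_toNNReal (ENNReal.mul_ne_top hMfin hKBfin)]
  set κ : Sph n → Sph n × (Fin n → ℤ) := fun e => (c e, fun j => ⌊b e j⌋) with hκ
  have hpart := Nq_partition (q := q) (δ := δ) hq Ω b κ (M := M) (by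
    intro x
    refine ⟨F ×ˢ Fintype.piFinset (fun j => Finset.Icc (⌊x j⌋ - 2) (⌊x j⌋ + 2)), ?_, ?_⟩
    · rw [Finset.card_product, Fintype.card_piFinset]
      simp only [Int.card_Icc]
      have : ∀ j : Fin n, (⌊x j⌋ + 2 + 1 - (⌊x j⌋ - 2)).toNat = 5 := fun j => by
        have : ⌊x j⌋ + 2 + 1 - (⌊x j⌋ - 2) = 5 := by ring
        rw [this]; rfl
      simp only [this, Finset.prod_const, Finset.card_univ, Fintype.card_fin]
      exact le_rfl
    · intro e he hx
      rw [Finset.mem_product, Fintype.mem_piFinset]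
      refine ⟨hcF e, fun j => ?_⟩
      have h2 := tube_near h1 hx
      have h3 : |x j - b e j| ≤ 2 := by
        have := PiLp.norm_apply_le (x - b e) j
        simp only [PiLp.sub_apply, Real.norm_eq_abs] at this
        exact this.trans h2
      rw [abs_le] at h3
      rw [Finset.mem_Icc]
      constructor
      · have : ⌊x j⌋ - 2 = ⌊x j - 2⌋ := by
          rw [Int.floor_sub_ofNat]
        rw [this]
        exact Int.floor_le_floor (by linarith)
      · have : ⌊x j⌋ + 2 = ⌊x j + 2⌋ := by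
          rw [Int.floor_add_ofNat]
        rw [this]
        exact Int.floor_le_floor (by linarith))
  refine hpart.trans ?_
  have hpiece : ∀ i ∈ Ω.image κ, Nq q δ (Ω.filter fun e => κ e = i) b ≤
      KB * ENNReal.ofReal (δ ^ σ) * ((Ω.filter fun e => κ e = i).card : ℝ≥0∞) ^ β := by
    rintro ⟨f, z⟩ hi
    set Ωi := Ω.filter fun e => κ e = (f, z) with hΩi
    set gf := g f with hgfd
    set Ω' := Ωi.image (KM.rot gf) with hΩ'
    set b' : Sph n → Rn n := fun e => gf (b (KM.rot gf.symm e)) with hb'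
    have hcard : Ω'.card = Ωi.card := Finset.card_image_of_injective _ (rot_inj gf)
    have hsi : Sep δ Ω' := by
      intro e he e' he' hne
      obtain ⟨u, hu, rfl⟩ := Finset.mem_image.1 he
      obtain ⟨u', hu', rfl⟩ := Finset.mem_image.1 he'
      rw [rot_dist]
      exact hs u (Finset.mem_filter.1 hu).1 u' (Finset.mem_filter.1 hu').1
        fun h => hne (by rw [h])
    have hnear : ∀ e ∈ Ω', dist e f0 < ρ := by
      intro e he
      obtain ⟨u, hu, rfl⟩ := Finset.mem_image.1 he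
      have hκu : κ u = (f, z) := (Finset.mem_filter.1 hu).2
      have hcu : c u = f := congrArg Prod.fst hκu
      rw [← hgf f, rot_dist, ← hcu]
      exact hcd u
    have hsubU : (Ω' : Set (Sph n)) ⊆ U := fun e he => (hρ' (hnear e he)).1
    set zz : Rn n := WithLp.toLp 2 (fun j => (z j : ℝ)) with hzz
    set v : Sph n → Rn n := fun e => (a0 f0 - l • gf zz) + l • b' e with hv
    have hvn : ∀ e ∈ Ω', ‖v e - a0 e‖ ≤ η := by
      intro e he
      obtain ⟨u, hu, hue⟩ := Finset.mem_image.1 he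
      have hκu : κ u = (f, z) := (Finset.mem_filter.1 hu).2
      have hze : (fun j => ⌊b u j⌋) = z := congrArg Prod.snd hκu
      have hbe : b' e = gf (b u) := by
        rw [← hue]
        show gf (b (KM.rot gf.symm (KM.rot gf u))) = gf (b u)
        rw [rot_symm]
      have h2 : v e - a0 e = l • gf (b u - zz) + (a0 f0 - a0 e) := by
        show (a0 f0 - l • gf zz) + l • b' e - a0 e = _
        rw [hbe, map_sub]; module
      have h3 : ‖b u - zz‖ ≤ R := by
        refine (norm_le_sum _).trans ?_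
        calc ∑ j, |(b u - zz) j| ≤ ∑ _j : Fin n, (1 : ℝ) := by
              refine Finset.sum_le_sum fun j _ => ?_
              have h4 : (b u - zz) j = b u j - (z j : ℝ) := by simp [hzz]
              have h5 : z j = ⌊b u j⌋ := (congrFun hze j).symm
              rw [h4, h5, abs_le]
              have h6 := Int.floor_le (b u j)
              have h7 := Int.lt_floor_add_one (b u j)
              constructor <;> linarith
          _ = n := by simp
          _ ≤ R := by rw [hR]; linarith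
      have h8 : ‖a0 f0 - a0 e‖ < η / 2 := by
        rw [← dist_eq_norm, dist_comm]
        exact (hρ' (hnear e he)).2
      rw [h2]
      calc ‖l • gf (b u - zz) + (a0 f0 - a0 e)‖ ≤ ‖l • gf (b u - zz)‖ + ‖a0 f0 - a0 e‖ :=
            norm_add_le _ _
        _ ≤ l * R + η / 2 := by
            rw [norm_smul, Real.norm_of_nonneg hl0.le, gf.norm_map]
            gcongr
        _ ≤ η := by linarith
    obtain ⟨a, ha, hav⟩ := extend h0 hη.le hsi a0 v hvn
    have hld0 : 0 < l * δ := mul_pos hl0 h0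
    have hld1 : l * δ < 1 := by nlinarith
    have hsl : Sep (l * δ) Ω' := fun e he e' he' hne =>
      le_trans (by nlinarith) (hsi e he e' he' hne)
    have h9 := h a ha (l * δ) hld0 hld1 Ω' hsubU hsl
    rw [Nq_congr hav, hcard] at h9
    have h10 := Nq_dil (q := q) (δ := δ) hq.le hl0 hl1 Ω' b' (a0 f0 - l • gf zz)
    have hrot : Nq q δ Ω' b' = Nq q δ Ωi b := Nq_rot gf q δ Ωi b
    rw [hrot] at h10
    have hln : 0 < l ^ n := pow_pos hl0 n
    have h11 : ENNReal.ofReal ((l * δ) ^ σ) = ENNReal.ofReal (l ^ σ) * ENNReal.ofReal (δ ^ σ) := by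
      rw [Real.mul_rpow hl0.le h0.le, ENNReal.ofReal_mul (by positivity)]
    calc Nq q δ Ωi b = ENNReal.ofReal ((l ^ n)⁻¹) * (ENNReal.ofReal (l ^ n) * Nq q δ Ωi b) := by
          rw [← mul_assoc, ← ENNReal.ofReal_mul (inv_pos.2 hln).le, inv_mul_cancel₀ hln.ne',
            ENNReal.ofReal_one, one_mul]
      _ ≤ ENNReal.ofReal ((l ^ n)⁻¹) *
          (K * ENNReal.ofReal ((l * δ) ^ σ) * (Ωi.card : ℝ≥0∞) ^ β) := by
          exact mul_le_mul' le_rfl (h10.trans h9)
      _ = _ := by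
          rw [h11, hKB]; ring
  calc (M : ℝ≥0∞) ^ q * ∑ i ∈ Ω.image κ, Nq q δ (Ω.filter fun e => κ e = i) b
      ≤ (M : ℝ≥0∞) ^ q * ∑ i ∈ Ω.image κ, KB * ENNReal.ofReal (δ ^ σ) *
          ((Ω.filter fun e => κ e = i).card : ℝ≥0∞) ^ β := by
        gcongr with i hi
        exact hpiece i hi
    _ = (M : ℝ≥0∞) ^ q * (KB * ENNReal.ofReal (δ ^ σ) * ∑ i ∈ Ω.image κ,
          ((Ω.filter fun e => κ e = i).card : ℝ≥0∞) ^ β) := by
        congr 1
        rw [Finset.mul_sum]
    _ ≤ (M : ℝ≥0∞) ^ q * (KB * ENNReal.ofReal (δ ^ σ) * (∑ i ∈ Ω.image κ,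
          ((Ω.filter fun e => κ e = i).card : ℝ≥0∞)) ^ β) := by
        gcongr
        exact sum_pow_le hβ _ _
    _ = (M : ℝ≥0∞) ^ q * KB * ENNReal.ofReal (δ ^ σ) * (Ω.card : ℝ≥0∞) ^ β := by
        have h12 : ∑ i ∈ Ω.image κ, ((Ω.filter fun e => κ e = i).card : ℝ≥0∞) =
            (Ω.card : ℝ≥0∞) := by
          rw [← Nat.cast_sum, ← Finset.card_eq_sum_card_image]
        rw [h12]; ring

theorem dich {U : Set (Sph n)} (hU : IsOpen U) (hne : U.Nonempty) {q σ β : ℝ} (hq : 0 < q)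
    (hβ : 1 ≤ β) (hnot : ¬ ∃ K : ℝ≥0, ∀ b : Sph n → Rn n, PB n univ q σ β K b) :
    ∀ᶠ a : C(Sph n, Rn n) in residual _, ¬ ∃ K : ℝ≥0, PB n U q σ β K a := by
  have h1 : ∀ k : ℕ, {a : C(Sph n, Rn n) | PB n U q σ β (k : ℝ≥0) a}ᶜ ∈
      residual (C(Sph n, Rn n)) := by
    intro k
    refine residual_of_dense_open (PB_closed hq.le _).isOpen_compl ?_
    rw [← interior_eq_empty_iff_dense_compl]
    by_contra hint
    obtain ⟨a0, ha0⟩ := nonempty_iff_ne_empty.2 hint
    obtain ⟨r, hr, hball⟩ := Metric.isOpen_iff.1 isOpen_interior a0 ha0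
    refine hnot (local_bound hU hne hq hβ (K := (k : ℝ≥0)) (a0 := a0) (η := r / 2) (by positivity)
      fun a ha => ?_)
    exact interior_subset (hball (by rw [mem_ball]; linarith))
  filter_upwards [countable_iInter_mem.2 h1] with a ha
  rintro ⟨K, hK⟩
  obtain ⟨k, hk⟩ := exists_nat_ge K
  exact (mem_iInter.1 ha k) (PB_mono hk hK)

theorem PB_q {U : Set (Sph n)} {q q' σ β : ℝ} (hq : 0 < q) (hqq : q ≤ q') {K : ℝ≥0}
    {a : Sph n → Rn n} (h : PB n U q σ β K a) : PB n U q' σ (β + (q' - q)) K a := by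
  intro δ h0 h1 Ω hΩU hs
  have hle : ∀ x, mult δ Ω a x ≤ (Ω.card : ℝ≥0∞) := fun x => by
    unfold mult
    calc ∑ e ∈ Ω, (tube δ (a e) (e : Rn n)).indicator (fun _ => (1 : ℝ≥0∞)) x
        ≤ ∑ _e ∈ Ω, (1 : ℝ≥0∞) := Finset.sum_le_sum fun e _ => indicator_le_self' (by simp) x
      _ = _ := by simp
  rcases Ω.eq_empty_or_nonempty with he | he
  · have h2 : Nq q' δ Ω a = 0 := by
      unfold Nq mult
      rw [he]
      simp [ENNReal.zero_rpow_of_pos (hq.trans_le hqq)]
    rw [h2]; exact bot_le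
  have hm0 : (Ω.card : ℝ≥0∞) ≠ 0 := by
    simpa using he.ne_empty
  calc Nq q' δ Ω a = ∫⁻ x, (mult δ Ω a x) ^ q' := rfl
    _ ≤ ∫⁻ x, (Ω.card : ℝ≥0∞) ^ (q' - q) * (mult δ Ω a x) ^ q := by
        refine lintegral_mono fun x => ?_
        have h3 : (mult δ Ω a x) ^ q' = (mult δ Ω a x) ^ (q' - q) * (mult δ Ω a x) ^ q := by
          rw [← ENNReal.rpow_add_of_nonneg _ _ (by linarith) hq.le, sub_add_cancel]
        rw [h3]
        exact mul_le_mul' (ENNReal.rpow_le_rpow (hle x) (by linarith)) le_rfl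
    _ = (Ω.card : ℝ≥0∞) ^ (q' - q) * Nq q δ Ω a := by
        rw [lintegral_const_mul _ ((mult_meas _ _ _).pow_const q)]; rfl
    _ ≤ (Ω.card : ℝ≥0∞) ^ (q' - q) *
        (K * ENNReal.ofReal (δ ^ σ) * (Ω.card : ℝ≥0∞) ^ β) := by
        gcongr
        exact h δ h0 h1 Ω hΩU hs
    _ = _ := by
        rw [ENNReal.rpow_add _ _ hm0 (ENNReal.natCast_ne_top _)]; ring

end Pool.Agent.Helper184.TP
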