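import Pool.Agent.Helper184.TP.Main

/-!
The norm form of the tube inequality and the typical continuous choice of centres.
-/

open MeasureTheory Set Metric Filter
open scoped ENNReal NNReal Topology

namespace Pool.Agent.Helper184.TP

variable {n : ℕ}

/-- norm form -/
def TB (n : ℕ) (U : Set (Sph n)) (q τ C : ℝ) (a : Sph n → Rn n) : Prop :=
  ∀ δ : ℝ, 0 < δ → δ < 1 → ∀ Ω : Finset (Sph n), (Ω : Set (Sph n)) ⊆ U → Sep δ Ω →
    (Nq q δ Ω a) ^ (1 / q) ≤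
      ENNReal.ofReal (C * δ ^ (((n : ℝ) - 1) / q - τ) * (Ω.card : ℝ) ^ (1 - 1 / (q * ((n : ℝ) - 1))))

theorem rhs_pow {q τ C δ m : ℝ} (hn : 2 ≤ n) (hq : 0 < q) (hC : 0 ≤ C) (h0 : 0 < δ) (hm : 0 ≤ m) :
    ENNReal.ofReal (C * δ ^ (((n : ℝ) - 1) / q - τ) * m ^ (1 - 1 / (q * ((n : ℝ) - 1)))) ^ q =
      ENNReal.ofReal (C ^ q) * ENNReal.ofReal (δ ^ ((n : ℝ) - 1 - q * τ)) *
        ENNReal.ofReal (m ^ (q - 1 / ((n : ℝ) - 1))) := by
  have hn1 : (0 : ℝ) < (n : ℝ) - 1 := by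
    have : (2 : ℝ) ≤ n := by exact_mod_cast hn
    linarith
  rw [ENNReal.ofReal_rpow_of_nonneg (by positivity) hq.le, Real.mul_rpow (by positivity)
    (by positivity), Real.mul_rpow hC (by positivity), ← Real.rpow_mul h0.le, ← Real.rpow_mul hm,
    ENNReal.ofReal_mul (by positivity), ENNReal.ofReal_mul (by positivity)]
  have e1 : (((n : ℝ) - 1) / q - τ) * q = (n : ℝ) - 1 - q * τ := by
    field_simp
  have e2 : (1 - 1 / (q * ((n : ℝ) - 1))) * q = q - 1 / ((n : ℝ) - 1) := by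
    field_simp
  rw [e1, e2]

theorem beta_pos {q : ℝ} (hn : 2 ≤ n) (hq : (n : ℝ) / ((n : ℝ) - 1) ≤ q) :
    1 ≤ q - 1 / ((n : ℝ) - 1) ∧ 0 < q := by
  have hn1 : (0 : ℝ) < (n : ℝ) - 1 := by
    have : (2 : ℝ) ≤ n := by exact_mod_cast hn
    linarith
  have e1 : (n : ℝ) / ((n : ℝ) - 1) = 1 + 1 / ((n : ℝ) - 1) := by
    field_simp; ring
  have : 0 < 1 / ((n : ℝ) - 1) := by positivity
  rw [e1] at hq
  constructor <;> linarith

theorem TB_to_PB {U : Set (Sph n)} {q τ C : ℝ} (hn : 2 ≤ n) (hq : (n : ℝ) / ((n : ℝ) - 1) ≤ q)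
    {a : Sph n → Rn n} (h : TB n U q τ C a) :
    PB n U q ((n : ℝ) - 1 - q * τ) (q - 1 / ((n : ℝ) - 1)) ((max C 0) ^ q).toNNReal a := by
  obtain ⟨hβ, hq0⟩ := beta_pos hn hq
  intro δ h0 h1 Ω hU hs
  have h2 := h δ h0 h1 Ω hU hs
  have h3 : (Nq q δ Ω a) ^ (1 / q) ≤ ENNReal.ofReal (max C 0 * δ ^ (((n : ℝ) - 1) / q - τ) *
      (Ω.card : ℝ) ^ (1 - 1 / (q * ((n : ℝ) - 1)))) := by
    refine h2.trans (ENNReal.ofReal_le_ofReal ?_)
    gcongr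
    exact le_max_left _ _
  have h4 := ENNReal.rpow_le_rpow h3 hq0.le
  rw [← ENNReal.rpow_mul, one_div_mul_cancel hq0.ne', ENNReal.rpow_one,
    rhs_pow hn hq0 (le_max_right _ _) h0 (Nat.cast_nonneg _)] at h4
  refine h4.trans (le_of_eq ?_)
  rw [← ENNReal.ofReal_rpow_of_nonneg (Nat.cast_nonneg _) (by linarith), ENNReal.ofReal_natCast]
  rfl

theorem PB_to_TB {U : Set (Sph n)} {q τ : ℝ} {K : ℝ≥0} (hn : 2 ≤ n)
    (hq : (n : ℝ) / ((n : ℝ) - 1) ≤ q) {a : Sph n → Rn n}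
    (h : PB n U q ((n : ℝ) - 1 - q * τ) (q - 1 / ((n : ℝ) - 1)) K a) :
    TB n U q τ ((K : ℝ) ^ (1 / q)) a := by
  obtain ⟨hβ, hq0⟩ := beta_pos hn hq
  intro δ h0 h1 Ω hU hs
  have h2 := h δ h0 h1 Ω hU hs
  rw [one_div, ENNReal.rpow_inv_le_iff hq0, rhs_pow hn hq0 (by positivity) h0 (Nat.cast_nonneg _)]
  refine h2.trans (le_of_eq ?_)
  rw [← ENNReal.ofReal_rpow_of_nonneg (Nat.cast_nonneg _) (by linarith), ENNReal.ofReal_natCast,
    ← Real.rpow_mul K.coe_nonneg]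
  have : q⁻¹ * q = 1 := inv_mul_cancel₀ hq0.ne'
  rw [this, Real.rpow_one, ENNReal.ofReal_coe_nnreal]

/-- the inequality for one choice of centres and directions in `U` -/
def Holds (n : ℕ) (U : Set (Sph n)) (q τ : ℝ) (a : Sph n → Rn n) : Prop := ∃ C : ℝ, TB n U q τ C a

/-- the inequality for all choices of centres -/
def HoldsAll (n : ℕ) (q τ : ℝ) : Prop := ∃ C : ℝ, ∀ b : Sph n → Rn n, TB n univ q τ C b

theorem Holds_anti {U U' : Set (Sph n)} (h : U' ⊆ U) {q τ : ℝ} {a : Sph n → Rn n}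
    (ha : Holds n U q τ a) : Holds n U' q τ a := by
  obtain ⟨C, hC⟩ := ha
  exact ⟨C, fun δ h0 h1 Ω hU hs => hC δ h0 h1 Ω (hU.trans h) hs⟩

theorem typ_one {U : Set (Sph n)} (hU : IsOpen U) (hne : U.Nonempty) {q τ : ℝ} (hn : 2 ≤ n)
    (hq : (n : ℝ) / ((n : ℝ) - 1) ≤ q) (h : ¬ HoldsAll n q τ) :
    ∀ᶠ a : C(Sph n, Rn n) in residual _, ¬ Holds n U q τ a := by
  obtain ⟨hβ, hq0⟩ := beta_pos hn hq
  have h1 : ¬ ∃ K : ℝ≥0, ∀ b : Sph n → Rn n,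
      PB n univ q ((n : ℝ) - 1 - q * τ) (q - 1 / ((n : ℝ) - 1)) K b := fun ⟨K, hK⟩ =>
    h ⟨_, fun b => PB_to_TB hn hq (hK b)⟩
  filter_upwards [dich hU hne hq0 hβ h1] with a ha
  rintro ⟨C, hC⟩
  exact ha ⟨_, TB_to_PB hn hq hC⟩

theorem typ {q τ : ℝ} (hn : 2 ≤ n) (hq : (n : ℝ) / ((n : ℝ) - 1) ≤ q) (h : ¬ HoldsAll n q τ) :
    ∀ᶠ a : C(Sph n, Rn n) in residual _, ∀ U : Set (Sph n), IsOpen U → U.Nonempty →
      ¬ Holds n U q τ a := by
  have h1 : ∀ᶠ a : C(Sph n, Rn n) in residual _,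
      ∀ B ∈ TopologicalSpace.countableBasis (Sph n), ¬ Holds n B q τ a :=
    (eventually_countable_ball (TopologicalSpace.countable_countableBasis _)).2 fun B hB =>
      typ_one (TopologicalSpace.isOpen_of_mem_countableBasis hB)
        (TopologicalSpace.nonempty_of_mem_countableBasis hB) hn hq h
  filter_upwards [h1] with a ha U hU hne hhold
  obtain ⟨x, hx⟩ := hne
  obtain ⟨B, hB, hxB, hBU⟩ :=
    (TopologicalSpace.isBasis_countableBasis (Sph n)).exists_subset_of_mem_open hx hU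
  exact ha B hB (Holds_anti hBU hhold)

theorem Holds_mono {U : Set (Sph n)} {q q' : ℝ} (hn : 2 ≤ n) (hq : (n : ℝ) / ((n : ℝ) - 1) ≤ q)
    (hqq : q ≤ q') {a : Sph n → Rn n} (h : Holds n U q 0 a) : Holds n U q' 0 a := by
  obtain ⟨hβ, hq0⟩ := beta_pos hn hq
  obtain ⟨C, hC⟩ := h
  have h1 := TB_to_PB hn hq hC
  have h2 := PB_q hq0 hqq h1
  have e1 : (n : ℝ) - 1 - q * 0 = (n : ℝ) - 1 - q' * 0 := by ring
  have e2 : q - 1 / ((n : ℝ) - 1) + (q' - q) = q' - 1 / ((n : ℝ) - 1) := by ring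
  rw [e1, e2] at h2
  exact ⟨_, PB_to_TB hn (hq.trans hqq) h2⟩

theorem HoldsAll_mono {q q' : ℝ} (hn : 2 ≤ n) (hq : (n : ℝ) / ((n : ℝ) - 1) ≤ q) (hqq : q ≤ q')
    (h : HoldsAll n q 0) : HoldsAll n q' 0 := by
  obtain ⟨hβ, hq0⟩ := beta_pos hn hq
  obtain ⟨C, hC⟩ := h
  have e1 : (n : ℝ) - 1 - q * 0 = (n : ℝ) - 1 - q' * 0 := by ring
  have e2 : q - 1 / ((n : ℝ) - 1) + (q' - q) = q' - 1 / ((n : ℝ) - 1) := by ring
  refine ⟨_, fun b => PB_to_TB (K := ((max C 0) ^ q).toNNReal) hn (hq.trans hqq) ?_⟩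
  have h2 := PB_q hq0 hqq (TB_to_PB hn hq (hC b))
  rwa [e1, e2] at h2

/-- one typical choice is universal for all exponents and all open sets of directions -/
theorem typ_all (hn : 2 ≤ n) : ∀ᶠ a : C(Sph n, Rn n) in residual _,
    ∀ U : Set (Sph n), IsOpen U → U.Nonempty →
      ∀ q : ℝ, (n : ℝ) / ((n : ℝ) - 1) < q → Holds n U q 0 a → HoldsAll n q 0 := by
  set Bad : Set ℝ := {q | (n : ℝ) / ((n : ℝ) - 1) < q ∧ ¬ HoldsAll n q 0} with hBad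
  set D : Set ℝ := {q | q ∈ Bad ∧ (q ∈ range ((↑) : ℚ → ℝ) ∨ IsGreatest Bad q)} with hD
  have hDc : D.Countable := by
    have h1 : D ⊆ range ((↑) : ℚ → ℝ) ∪ {q | IsGreatest Bad q} := fun q hq => hq.2
    refine (Countable.union (countable_range _) ?_).mono h1
    refine Set.Subsingleton.countable fun x hx y hy => ?_
    exact hx.unique hy
  have hcof : ∀ q ∈ Bad, ∃ r ∈ D, q ≤ r := by
    intro q hq
    by_cases hg : IsGreatest Bad q
    · exact ⟨q, ⟨hq, Or.inr hg⟩, le_rfl⟩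
    · have : ∃ q' ∈ Bad, q < q' := by
        by_contra hcon
        push Not at hcon
        exact hg ⟨hq, hcon⟩
      obtain ⟨q', hq', hlt⟩ := this
      obtain ⟨r, hr1, hr2⟩ := exists_rat_btwn hlt
      refine ⟨r, ⟨⟨hq.1.trans hr1, fun hr => hq'.2 ?_⟩, Or.inl ⟨r, rfl⟩⟩, hr1.le⟩
      exact HoldsAll_mono hn (hq.1.trans hr1).le hr2.le hr
  have h1 : ∀ᶠ a : C(Sph n, Rn n) in residual _, ∀ r ∈ D, ∀ U : Set (Sph n), IsOpen U →
      U.Nonempty → ¬ Holds n U r 0 a :=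
    (eventually_countable_ball hDc).2 fun r hr => typ hn hr.1.1.le hr.1.2
  filter_upwards [h1] with a ha U hU hne q hq hhold
  by_contra hcon
  obtain ⟨r, hr, hqr⟩ := hcof q ⟨hq, hcon⟩
  exact ha r hr U hU hne (Holds_mono hn hq.le hqr hhold)

theorem nebot : (residual (C(Sph n, Rn n))).NeBot := by
  refine ⟨fun hbot => ?_⟩
  have h3 : (∅ : Set (C(Sph n, Rn n))) ∈ residual _ := by
    rw [hbot]; trivial
  have h4 := dense_of_mem_residual h3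
  exact absurd h4.nonempty (by simp)

end Pool.Agent.Helper184.TP
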